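import Pool.Agent.R615.KU.Gp
import Pool.Agent.R615.KU.Fk
import Pool.Agent.R615.KU.Wr2
import Pool.Agent.R615.KU.PTk
import Pool.Agent.R615.KU.DetK
import Pool.Agent.R942.NV.VF

/-!
Closure properties of the class of the groups with injective rational assembly maps in algebraic
`K`-theory, for an arbitrary coefficient ring.

`R` is any ring, `rat (kgr R)` is the functor `G ↦ ℚ ⊗ K₁(R[G])`, and `hq j` is the functor
`G ↦ H_j(G; ℚ)`. The class `𝒦_R` is the class of the groups `G` with `DetK R G`: for every group `T` and every family of transformations `α_{j,i} : H_j(G; ℚ) → ℚ ⊗ K₁(R[G × T])`, `i ∈ I_j`,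
natural in the group `G`, such that the `α_{j,i}`, `i ∈ I_j`, are linearly independent on `ℤ^j` for
each `j`, the sum of all the `α_{j,i}` is injective on `G`.

The class contains the groups `P / [S, S]`, for all groups `P` with a free subgroup of finite index
and all normal subgroups `S` of `P`. It is closed under direct products, under overgroups of finite
index, under extensions with finite kernel, under graph products, and under restricted wreath
products `K ≀_V Γ` such that the pointwise stabilizers in `Γ` of the finite subsets of `V` are in the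
class. A group is in the class if its rational homology is detected by homomorphisms to groups in
the class.
-/

namespace Pool.Agent.Results.MP_5d3e93_al.ClosureProperties

open CategoryTheory Monoid Pool.Agent.Y483 Pool.Agent.Y477.IW Pool.Agent.Y75.MQ Pool.Agent.Y483.PW
  Pool.Agent.Y110.KW Pool.Agent.R615.KU Pool.Agent.R615.K1 Pool.Agent.R793.Mag Pool.Agent.R942.NV

theorem result (R : Type) [Ring R] :
    (∀ (P : Type) [Group P] (F : Subgroup P) [F.FiniteIndex] [IsFreeGroup F]
      (S : Subgroup P) [S.Normal], DetK R (P ⧸ (⁅S, S⁆ : Subgroup P))) ∧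
    (∀ (G K : Type) [Group G] [Group K], DetK R G → DetK R K → DetK R (G × K)) ∧
    (∀ (G : Type) [Group G] (H : Subgroup G) [H.FiniteIndex], DetK R H → DetK R G) ∧
    (∀ (G K : Type) [Group G] [Group K] (f : G →* K) [Finite f.ker], Function.Surjective f →
      DetK R K → DetK R G) ∧
    (∀ (G : Type) [Group G], (∀ (j : ℕ) (x : (hq j).obj (GrpCat.of G)), x ≠ 0 →
      ∃ (K : Type) (_ : Group K) (f : G →* K), DetK R K ∧
        ((hq j).map (GrpCat.ofHom f)).hom x ≠ 0) → DetK R G) ∧
    (∀ (V : Type) (P : V → Type) [∀ v, Group (P v)] (Λ : SimpleGraph V),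
      (∀ v, DetK R (P v)) → DetK R (GP P Λ)) ∧
    (∀ (K V Γ : Type) [Group K] [Group Γ] [MulAction Γ V], DetK R K →
      (∀ σ : Finset V, DetK R (fixingSubgroup Γ (σ : Set V))) → DetK R (FW K V Γ)) := by
  have hE : HasPT (rat (kgr R)) := hasPT_rat (hasPTI_kgr R)
  refine ⟨?_, ?_, ?_, ?_, ?_, ?_, ?_⟩
  · intro P _ F _ _ S _ T _ I α hα
    have hT : HasTransfers (timesF T ⋙ rat (kgr R)) :=
      hasTransfers_times (hasPairTransfers_of_PT hE) T
    rw [kerFam_eq]
    exact ker_flow S _ _ hT (by rw [mul_one]; exact Subgroup.FiniteIndex.index_ne_zero)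
      (flowFin (flowFree F)) (fun n => ker_Zn_of_li α hα n)
  · intro G K _ _ h1 h2
    exact Det.prod (E := rat (kgr R)) h1 h2
  · intro G _ H _ h
    exact Det.virt hE H h
  · intro G K _ _ f _ hf h
    exact Det.of_inj (E := rat (kgr R)) h f fun j x hx => fk_inj f hf j x hx
  · intro G _ h
    exact Det.detect (E := rat (kgr R)) h
  · intro V P _ Λ h
    exact Det.graph Λ hE h
  · intro K V Γ _ _ _ h1 h2
    exact Det.fw hE h1 h2

end Pool.Agent.Results.MP_5d3e93_al.ClosureProperties
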