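import Pool.Agent.R632.GE.Tri

/-!
# The groups `GE₂(R)` of filtered rings and the Farrell–Jones conjecture

`C` is any class of groups with the closure properties `ClosedE C`, all of which are known for the
class of the groups that satisfy the Full Farrell–Jones Conjecture.

Let `R` be a ring, in general not commutative, with a degree function in the sense of P. M. Cohn: the
degree of a product is the sum of the degrees, the degree of a sum is at most the maximum of the
degrees, and the elements of degree `0` are invertible. Let `R → S` be a homomorphism of rings with
`S ≠ 0` such that `GL₂(S)` is in `C`. Suppose that `C` contains the solvable groups (as the class of the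
Farrell–Jones groups does) or that the elements of degree `0` are central in `R`. Then the group
`GE₂(R)`, generated by the elementary and the diagonal matrices of size `2` over `R`, is in `C`.

Examples: free associative algebras and universal enveloping algebras of all Lie algebras over a field
`k`, and skew polynomial rings `k[x;σ]` over a division ring `k`, with `GL₂(k)` in `C` (take `S = k`).

Outline of the proof. Let `k` be the division ring of the elements of degree at most `0`. By an
induction on the degrees, `GE₂(R)` is in the amalgamated product of `GL₂(k)` and of the group of upper
triangular matrices with diagonal entries in `k`. The homomorphism `R → S` is injective on `k`, so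
the map to `GL₂(S)` is injective on the factor `GL₂(k)`, hence on the amalgamated subgroup, and
`MP_8f66f0_al.EdgeInjectiveSplittings` applies. The triangular matrices are an extension of a subgroup
of `GL₂(k)` by an abelian group; if `k` is central in `R`, they are a directed union of groups that
embed in powers of `GL₂(k)`.
-/

set_option autoImplicit false

namespace Pool.Agent.Results.MP_5d3e93_al.DegreeRings

open Pool.Agent.Y110.FJ Pool.Agent.R632.GE

/-- **Groups `GE₂` of rings with a degree function in a Farrell–Jones class.** -/
theorem result (C : ∀ (G : Type) [Group G], Prop) (hC : ClosedE C) (R S : Type)
    [Ring R] [Nontrivial R] [Ring S] [Nontrivial S] (D : R → WithBot ℕ) (hD : IsDegree R D)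
    (ψ : R →+* S) (hS : C (Matrix (Fin 2) (Fin 2) S)ˣ)
    (h : (∀ (G : Type) [Group G], Group.IsSolvable G → C G) ∨
      ∀ x y : R, D x ≤ 0 → x * y = y * x) :
    C (GE2 R) :=
  ge2 hC hD ψ hS h

end Pool.Agent.Results.MP_5d3e93_al.DegreeRings
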