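import Pool.Agent.R942.FJ.Det

/-!
# Extensions whose kernel is locally detected by homomorphisms to groups in the class

`C` is any class of groups with the closure properties `ClosedE C`, all of which are known for the
class of the groups that satisfy the Farrell–Jones conjecture with coefficients in additive categories
and finite wreath products.

Let `N` be a normal subgroup of `G` with `G ⧸ N` in `C`.

(1) Suppose that for each `g` in `G` and each finite subset `E` of `N` there is a homomorphism from
`N ⟨g⟩` to a group in `C` which is injective on the subgroup generated by `E` (`Detected`). The
homomorphism and the group depend on `E`, and nothing is required of it outside this subgroup. Then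
`G` is in `C`.

(2) Let `C` contain the solvable groups. Suppose that each finitely generated subgroup of `N` meets
some term of the derived series of `N` trivially. Then `G` is in `C`. Such `N` are locally solvable,
and in general neither solvable nor a union of solvable normal subgroups of `G`; for instance `N` may be
the group of finitary unitriangular matrices over any ring with rows and columns indexed by the
integers, and `G` a group that acts on it by shifts (and in any way compatible with this).

Outline of the proof. If `f : N ⟨g⟩ → P` is injective on the group generated by `E` and `g E g⁻¹`, then
`f(g)` realizes the conjugation by `g` on `E` in `P`, and the criterion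
`MP_490288_al.RealizationCriterion` applies. In (2) one takes the quotient of `N ⟨g⟩` by the `k`-th
derived subgroup of `N`.
-/

set_option autoImplicit false

namespace Pool.Agent.Results.MP_5d3e93_al.DetectedKernels

open Pool.Agent.Y110.FJ Pool.Agent.R942.FJ

theorem result (C : ∀ (G : Type) [Group G], Prop) (hC : ClosedE C)
    (G : Type) [Group G] (N : Subgroup G) [N.Normal] (hQ : C (G ⧸ N)) :
    ((∀ g : G, Detected C N g) → C G) ∧
    ((∀ (S : Type) [Group S], Group.IsSolvable S → C S) →
      (∀ E : Set N, E.Finite → ∃ k : ℕ, ∀ x ∈ Subgroup.closure E, x ∈ derivedSeries N k → x = 1) →
      C G) :=
  ⟨fun h => main_detected hC N h hQ,
    fun hsol hN => main_detected hC N (detected_derived hsol N hN) hQ⟩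

end Pool.Agent.Results.MP_5d3e93_al.DetectedKernels
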