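import Pool.Agent.R933.FJ.Cor

/-!
# Groups of `2 × 2` matrices over polynomial rings

`C` is any class of groups with the closure properties `ClosedE C` which contains the metabelian groups.
All this is known for the class of the groups that satisfy the K-theoretic (or the K- and L-theoretic)
Farrell–Jones conjecture with coefficients in additive categories and with finite wreath products. So
the isomorphism of Q1 holds for all groups below if it holds, with finite wreath products, for the
indicated smaller group.

(1) Let `D` be a division ring and `G` any group of invertible `2 × 2` matrices over `D[T]`. If the group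
of the values at `T = 0` of the elements of `G` is in `C`, then `G` is in `C`.

(2) Let `R` be a (commutative) domain, `p` a point with coordinates in `R` and `G` any group of invertible
`2 × 2` matrices over a polynomial ring over `R` in any number of variables. If the group of the values
at `p` of the elements of `G` is in `C`, then `G` is in `C`.

(3) `GL₂(R[x_i, i ∈ σ])` is in `C` if and only if `GL₂(R)` is in `C`. For instance `GL₂(ℤ[x₁, …, x_n])`,
`GL₂(𝔽_p[x₁, …, x_n])`, `GL₂(O[x₁, …, x_n])` for every ring `O` of `S`-integers in a global field and
`GL₂(k[x_i, i ∈ σ])` for every algebraic extension `k` of a global field are Farrell–Jones groups.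

(4) Let `A` be a ring with a grading by the natural numbers that embeds in a division ring, for instance a
commutative graded domain or a free associative algebra. If `G` is a group of invertible `2 × 2` matrices
over `A` and the group of the parts of degree zero of the elements of `G` is in `C`, then `G` is in `C`.

Outline of the proof.

* The kernel of `GL₂(D[T]) → GL₂(D)`, `T ↦ 0`, is the free product of the subgroups
  `U_l = h (1, T D[T]; 0, 1) h⁻¹`, one for every line `l = h e₁` in `D²`: it is generated by them by the
  Euclidean algorithm; and they generate their free product since `u ≠ 1` in `U_l` maps every vector over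
  `D[T]` whose leading vector is not in `l` to a vector of larger degree with leading vector in `l`.
* `GL₂(D)` permutes the subgroups `U_l`, which are abelian. For a subgroup `Q` of `GL₂(D)` in `C` the group
  of the matrices whose value at `0` is in `Q` is therefore in `C` by the theorem on extensions by
  free products whose factors are permuted (R773), since the groups `U_l ⟨q⟩` are metabelian for `q l = l`.
* Polynomial rings in several variables and graded domains embed in `K[T]`, `K` the field of fractions, by
  `a ↦ ∑ a_n Tⁿ` (after the translation to `p`); the value at `T = 0` is the value at `p`, the part of degree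
  zero respectively.
-/

set_option autoImplicit false

namespace Pool.Agent.Results.MP_5d3e93_al.PolynomialMatrices

open Pool.Agent.Y110.FJ Pool.Agent.R933.FJ

theorem result (C : ∀ (G : Type) [Group G], Prop) (hC : ClosedE C) (hM : HasMetabelian C) :
    (∀ (D : Type) [DivisionRing D] (G : Subgroup (G2 (Polynomial D))),
      C ↥(G.map (mapG2 (Polynomial.constantCoeff : Polynomial D →+* D))) → C ↥G) ∧
    (∀ (R : Type) [CommRing R] [IsDomain R] (σ : Type) (p : σ → R)
      (G : Subgroup (G2 (MvPolynomial σ R))),
      C ↥(G.map (mapG2 (MvPolynomial.eval p))) → C ↥G) ∧
    (∀ (R : Type) [CommRing R] [IsDomain R] (σ : Type),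
      C (G2 (MvPolynomial σ R)) ↔ C (G2 R)) ∧
    (∀ (A D : Type) [Ring A] [DivisionRing D] (𝒜 : ℕ → AddSubgroup A) [GradedRing 𝒜] (ι : A →+* D),
      Function.Injective ι → ∀ G : Subgroup (G2 A),
      C ↥(G.map (mapG2 (GradedRing.projZeroRingHom 𝒜))) → C ↥G) := by
  refine ⟨fun D _ G hG => main_div hC hM G hG, fun R _ _ σ p G hG => main_mv hC hM p G hG,
    fun R _ _ σ => ⟨fun h => ?_, fun h => main_mv_top hC hM h⟩,
    fun A D _ _ 𝒜 _ ι hι G hG => main_graded 𝒜 ι hC hM hι G hG⟩
  exact hC.base.of_injective _ _ (mapG2 (MvPolynomial.C (σ := σ) (R := R)))
    (mapG2_injective (MvPolynomial.C_injective σ R)) h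

end Pool.Agent.Results.MP_5d3e93_al.PolynomialMatrices
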